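import Mathlib

/-! The square-summable sum of finite-dimensional normed spaces is reflexive. -/

set_option autoImplicit false

namespace Pool.Agent.Work.MP_4e33a2_an.R

open Finset

theorem fd_refl {F : Type} [NormedAddCommGroup F] [NormedSpace ℝ F] [FiniteDimensional ℝ F]
    (Ψ : (F →L[ℝ] ℝ) →ₗ[ℝ] ℝ) : ∃ v : F, ∀ φ : F →L[ℝ] ℝ, Ψ φ = φ v := by
  obtain ⟨v, hv⟩ := (Module.bijective_dual_eval ℝ F).2
    (Ψ.comp (LinearMap.toContinuousLinearMap : (F →ₗ[ℝ] ℝ) ≃ₗ[ℝ] F →L[ℝ] ℝ).toLinearMap)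
  refine ⟨v, fun φ => ?_⟩
  have := LinearMap.congr_fun hv (φ : F →ₗ[ℝ] ℝ)
  have e : LinearMap.toContinuousLinearMap (φ : F →ₗ[ℝ] ℝ) = φ := by ext; rfl
  simp only [Module.Dual.eval_apply, LinearMap.comp_apply, LinearEquiv.coe_coe, e] at this
  exact this.symm

theorem half_vec {F : Type} [NormedAddCommGroup F] [NormedSpace ℝ F] (φ : F →L[ℝ] ℝ) :
    ∃ u : F, ‖u‖ ≤ 1 ∧ ‖φ‖ / 2 ≤ φ u := by
  rcases (norm_nonneg φ).eq_or_lt with h | h
  · exact ⟨0, by simp, by simp [← h]⟩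
  · obtain ⟨x, h1, h2⟩ := φ.exists_lt_apply_of_lt_opNorm (r := ‖φ‖ / 2) (by linarith)
    rcases le_total 0 (φ x) with k | k
    · exact ⟨x, h1.le, by rw [Real.norm_of_nonneg k] at h2; exact h2.le⟩
    · exact ⟨-x, by simpa using h1.le, by
        rw [Real.norm_of_nonpos k] at h2; rw [map_neg]; exact h2.le⟩

theorem le_sq_of_le {T c : ℝ} (hT : 0 ≤ T) (hc : 0 ≤ c) (h : T ≤ c * √T) : T ≤ c ^ 2 := by
  have e := Real.mul_self_sqrt hT
  have s := Real.sqrt_nonneg T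
  by_contra hn
  have h1 : c < √T := Real.lt_sqrt_of_sq_lt (not_le.1 hn)
  nlinarith

variable {G : ℕ → Type} [∀ m, NormedAddCommGroup (G m)] [∀ m, NormedSpace ℝ (G m)]

theorem sum_sq_le (x : lp G 2) (s : Finset ℕ) : ∑ m ∈ s, ‖x m‖ ^ 2 ≤ ‖x‖ ^ 2 := by
  have := lp.sum_rpow_le_norm_rpow (p := 2) (by norm_num) x s
  simpa using this

theorem norm_fun_le (g : ∀ m, G m →L[ℝ] ℝ) (s : Finset ℕ) :
    ‖∑ m ∈ s, (g m).comp (lp.evalCLM ℝ G 2 m)‖ ≤ √(∑ m ∈ s, ‖g m‖ ^ 2) := by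
  refine ContinuousLinearMap.opNorm_le_bound _ (Real.sqrt_nonneg _) fun x => ?_
  rw [_root_.sum_apply]
  refine (norm_sum_le_of_le s (n := fun m => ‖g m‖ * ‖x m‖)
    fun m _ => (g m).le_opNorm (x m)).trans ((Real.sum_mul_le_sqrt_mul_sqrt s _ _).trans ?_)
  exact mul_le_mul_of_nonneg_left (Real.sqrt_le_iff.2 ⟨norm_nonneg _, sum_sq_le x s⟩)
    (Real.sqrt_nonneg _)

theorem dual_sq_le (f : lp G 2 →L[ℝ] ℝ) (s : Finset ℕ) :
    ∑ m ∈ s, ‖f.comp (lp.singleContinuousLinearMap ℝ G 2 m)‖ ^ 2 ≤ (2 * ‖f‖) ^ 2 := by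
  set g := fun m => f.comp (lp.singleContinuousLinearMap ℝ G 2 m) with hg
  choose u h1 h2 using fun m => half_vec (g m)
  refine le_sq_of_le (sum_nonneg fun _ _ => sq_nonneg _) (by positivity) ?_
  have e1 := lp.norm_sum_single (E := G) (p := 2) (by norm_num) (fun m => ‖g m‖ • u m) s
  simp only [ENNReal.toReal_ofNat, Real.rpow_ofNat] at e1
  have e2 : ‖∑ m ∈ s, lp.single 2 m (‖g m‖ • u m)‖ ≤ √(∑ m ∈ s, ‖g m‖ ^ 2) := by
    refine Real.le_sqrt_of_sq_le (e1.trans_le (sum_le_sum fun m _ => ?_))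
    refine pow_le_pow_left₀ (norm_nonneg _) ?_ 2
    rw [norm_smul, norm_norm]
    exact mul_le_of_le_one_right (norm_nonneg _) (h1 m)
  have e3 : (∑ m ∈ s, ‖g m‖ ^ 2) / 2 ≤ f (∑ m ∈ s, lp.single 2 m (‖g m‖ • u m)) := by
    rw [map_sum, sum_div]
    refine sum_le_sum fun m _ => ?_
    have : f (lp.single 2 m (‖g m‖ • u m)) = ‖g m‖ * g m (u m) := map_smul (g m) _ _
    rw [this, sq, mul_div_assoc]
    exact mul_le_mul_of_nonneg_left (h2 m) (norm_nonneg _)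
  have e4 := (le_abs_self _).trans ((f.le_opNorm (∑ m ∈ s, lp.single 2 m (‖g m‖ • u m))).trans
    (mul_le_mul_of_nonneg_left e2 (norm_nonneg _)))
  linarith

theorem dual_hasSum (f : lp G 2 →L[ℝ] ℝ) : HasSum (fun m =>
    (f.comp (lp.singleContinuousLinearMap ℝ G 2 m)).comp (lp.evalCLM ℝ G 2 m)) f := by
  set g := fun m => f.comp (lp.singleContinuousLinearMap ℝ G 2 m) with hg
  have s1 : Summable fun m => ‖g m‖ ^ 2 :=
    summable_of_sum_le (fun _ => sq_nonneg _) (dual_sq_le f)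
  have s2 : Summable fun m => (g m).comp (lp.evalCLM ℝ G 2 m) := by
    rw [summable_iff_vanishing_norm] at s1 ⊢
    intro ε hε
    obtain ⟨s, hs⟩ := s1 (ε ^ 2) (by positivity)
    refine ⟨s, fun t ht => (norm_fun_le g t).trans_lt ?_⟩
    exact (Real.sqrt_lt' hε).2 ((le_abs_self _).trans_lt (hs t ht))
  have e : ∑' m, (g m).comp (lp.evalCLM ℝ G 2 m) = f := by
    ext x
    exact (s2.hasSum.mapL (ContinuousLinearMap.apply ℝ ℝ x)).unique
      ((lp.hasSum_single (by norm_num) x).mapL f)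
  have h := s2.hasSum
  rw [e] at h
  exact h

theorem lp_refl [∀ m, FiniteDimensional ℝ (G m)] :
    Function.Surjective (NormedSpace.inclusionInDoubleDual ℝ (lp G 2)) := by
  intro Ψ
  choose v hv using fun m => fd_refl (F := G m) (Ψ.toLinearMap.comp
    ((ContinuousLinearMap.compL ℝ (lp G 2) (G m) ℝ).flip (lp.evalCLM ℝ G 2 m)).toLinearMap)
  have hv' : ∀ m (φ : G m →L[ℝ] ℝ), Ψ (φ.comp (lp.evalCLM ℝ G 2 m)) = φ (v m) := hv
  choose φ h1 h2 using fun m => exists_dual_vector'' ℝ (v m)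
  have mem : Memℓp v 2 := by
    refine memℓp_gen' (C := ‖Ψ‖ ^ 2) fun s => ?_
    simp only [ENNReal.toReal_ofNat, Real.rpow_ofNat]
    refine le_sq_of_le (sum_nonneg fun _ _ => sq_nonneg _) Ψ.opNorm_nonneg ?_
    have e1 : Ψ (∑ m ∈ s, (‖v m‖ • φ m).comp (lp.evalCLM ℝ G 2 m)) = ∑ m ∈ s, ‖v m‖ ^ 2 := by
      rw [map_sum]
      refine sum_congr rfl fun m _ => ?_
      rw [hv', ContinuousLinearMap.smul_apply, h2 m, sq]
      rfl
    have e2 := (norm_fun_le (fun m => ‖v m‖ • φ m) s).trans (Real.sqrt_le_sqrt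
      (sum_le_sum (g := fun m => ‖v m‖ ^ 2) fun m _ => pow_le_pow_left₀ (norm_nonneg _) (by
        rw [norm_smul, norm_norm]
        exact mul_le_of_le_one_right (norm_nonneg _) (h1 m)) 2))
    rw [← e1]
    refine (le_abs_self _).trans ((Ψ.le_opNorm _).trans ?_)
    rw [e1]
    exact mul_le_mul_of_nonneg_left e2 Ψ.opNorm_nonneg
  refine ⟨⟨v, mem⟩, ?_⟩
  ext f
  have a1 := (dual_hasSum f).mapL Ψ
  simp only [hv'] at a1
  exact ((lp.hasSum_single (by norm_num) (⟨v, mem⟩ : lp G 2)).mapL f).unique a1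

end Pool.Agent.Work.MP_4e33a2_an.R
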