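import Pool.Agent.Work.MP_4e33a2_an.Oper
import Pool.Agent.Work.MP_4e33a2_an.R.Refl

/-! The counterexample on the square-summable sum of the blocks (the proofs are those of `Oper`
and `Dom` with the exponent one replaced by two), which is reflexive. -/

set_option autoImplicit false
set_option linter.unusedSectionVars false

namespace Pool.Agent.Work.MP_4e33a2_an.R

open Finset Filter Topology
open scoped NNReal

/-- The `ℓ²` sum of the blocks. -/
def Sp (β : ℕ → Blk) : Type := lp (fun m => (β m).F) 2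

namespace Sp

variable {β : ℕ → Blk}

noncomputable instance : NormedAddCommGroup (Sp β) :=
  inferInstanceAs (NormedAddCommGroup (lp (fun m => (β m).F) 2))
noncomputable instance : NormedSpace ℝ (Sp β) :=
  inferInstanceAs (NormedSpace ℝ (lp (fun m => (β m).F) 2))
instance : CompleteSpace (Sp β) := inferInstanceAs (CompleteSpace (lp (fun m => (β m).F) 2))

/-- The block components of a vector. -/
def val (x : Sp β) (m : ℕ) : (β m).F := x.1 m

theorem val_inj : Function.Injective (val : Sp β → ∀ m, (β m).F) :=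
  fun _ _ h => Subtype.ext h

theorem mem (x : Sp β) : Memℓp x.val 2 := x.2

/-- Building a vector from its components. -/
def mk (f : ∀ m, (β m).F) (h : Memℓp f 2) : Sp β := ⟨f, h⟩

instance : LE (Sp β) := ⟨fun x y => x.val ≤ y.val⟩
instance : LT (Sp β) := ⟨fun x y => x.val < y.val⟩
noncomputable instance : Max (Sp β) := ⟨fun x y => mk (x.val ⊔ y.val)
  ((x.mem.norm.add y.mem.norm).mono fun _ => norm_sup_le_add _ _)⟩
noncomputable instance : Min (Sp β) := ⟨fun x y => mk (x.val ⊓ y.val)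
  ((x.mem.norm.add y.mem.norm).mono fun _ => norm_inf_le_add _ _)⟩

noncomputable instance : Lattice (Sp β) :=
  val_inj.lattice val Iff.rfl Iff.rfl (fun _ _ => rfl) (fun _ _ => rfl)

theorem le_def {x y : Sp β} : x ≤ y ↔ ∀ m w, x.val m w ≤ y.val m w := Iff.rfl

instance : IsOrderedAddMonoid (Sp β) where
  add_le_add_left _ _ h c := fun m w => add_le_add_left (h m w) (c.val m w)

instance : PosSMulMono ℝ (Sp β) where
  smul_le_smul_of_nonneg_left _ ha _ _ h := fun m w => mul_le_mul_of_nonneg_left (h m w) ha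

theorem norm_mono {x y : Sp β} (h : ∀ m, ‖x.val m‖ ≤ ‖y.val m‖) : ‖x‖ ≤ ‖y‖ :=
  lp.norm_mono (by norm_num) h

instance : HasSolidNorm (Sp β) where
  solid := fun _ _ h => norm_mono fun m => Blk.N_mono fun w => h m w

theorem norm_val_le (x : Sp β) (m : ℕ) : ‖x.val m‖ ≤ ‖x‖ :=
  lp.norm_apply_le_norm (by norm_num) x m

/-- Evaluation at a block. -/
noncomputable def ev (m : ℕ) : Sp β →L[ℝ] (β m).F := lp.evalCLM ℝ (fun m => (β m).F) 2 m

/-- Inclusion of a block. -/
noncomputable def sing (m : ℕ) : (β m).F →L[ℝ] Sp β :=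
  lp.singleContinuousLinearMap ℝ (fun m => (β m).F) 2 m

theorem sing_self (m : ℕ) (v : (β m).F) : (sing m v : Sp β).val m = v :=
  lp.single_apply_self (E := fun m => (β m).F) 2 m v

theorem sing_ne {m m' : ℕ} (h : m' ≠ m) (v : (β m).F) : (sing m v : Sp β).val m' = 0 :=
  lp.single_apply_ne (E := fun m => (β m).F) 2 m v h

theorem norm_sing (m : ℕ) (v : (β m).F) : ‖(sing m v : Sp β)‖ = ‖v‖ :=
  lp.norm_single (E := fun m => (β m).F) (p := 2) (by norm_num) m v

theorem hasSum_sing (x : Sp β) : HasSum (fun m => (sing m (x.val m) : Sp β)) x :=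
  lp.hasSum_single (by norm_num) x

/-- Coordinate functionals. -/
noncomputable def co (i : Σ m, (β m).V) : Sp β →L[ℝ] ℝ :=
  LinearMap.mkContinuous
    { toFun := fun x => x.val i.1 i.2
      map_add' := fun _ _ => rfl
      map_smul' := fun _ _ => rfl } 1 fun x => by
    rw [one_mul]
    exact (Blk.abs_le_N _ _).trans (norm_val_le x i.1)

/-- Unit vectors. -/
noncomputable def e (i : Σ m, (β m).V) : Sp β := sing i.1 (Blk.ind {i.2})

open Classical in
/-- Band projections. -/
noncomputable def P (S : Set (Σ m, (β m).V)) : Sp β →L[ℝ] Sp β :=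
  LinearMap.mkContinuous
    { toFun := fun x => mk (fun m w => if (⟨m, w⟩ : Σ m, (β m).V) ∈ S then x.val m w else 0)
        (x.mem.mono' fun m => Blk.N_mono fun w => by split_ifs <;> simp)
      map_add' := fun x y => val_inj (funext fun m => funext fun w => by
        show (if _ then x.val m w + y.val m w else 0) = (if _ then _ else _) + (if _ then _ else _)
        split_ifs <;> simp)
      map_smul' := fun a x => val_inj (funext fun m => funext fun w => by
        show (if _ then a * x.val m w else 0) = a * (if _ then _ else _)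
        split_ifs <;> simp) } 1 fun x => by
    rw [one_mul]
    refine norm_mono fun m => Blk.N_mono fun w => ?_
    show |if _ then x.val m w else 0| ≤ _
    split_ifs <;> simp

theorem sing_eq (m : ℕ) (v : (β m).F) : (sing m v : Sp β) = ∑ w, Blk.get w v • e ⟨m, w⟩ := by
  conv_lhs => rw [Blk.eq_sum v]
  rw [map_sum]
  simp only [map_smul, e]

/-- The atomic structure. -/
noncomputable def atomic (β : ℕ → Blk) : Atomic (Sp β) (Σ m, (β m).V) where
  co := co
  e := e
  P := P
  nonneg_iff x := ⟨fun h i => h i.1 i.2, fun h m w => h ⟨m, w⟩⟩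
  co_self i := by
    show Blk.get i.2 ((e i).val i.1) = 1
    rw [e, sing_self, Blk.get_ind]; simp
  co_ne := by
    rintro ⟨m, w⟩ ⟨m', w'⟩ h
    show Blk.get w ((sing m' (Blk.ind {w'}) : Sp β).val m) = 0
    by_cases hm : m = m'
    · subst hm
      rw [sing_self, Blk.get_ind, if_neg]
      exact fun e => h (by rw [mem_singleton.1 e])
    · rw [sing_ne hm, map_zero]
  P_in S x i hi := if_pos hi
  P_out S x i hi := if_neg hi
  dense x := by
    refine mem_closure_of_tendsto (hasSum_sing x) (Eventually.of_forall fun s => ?_)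
    refine Submodule.sum_mem _ fun m _ => ?_
    rw [sing_eq]
    refine Submodule.sum_mem _ fun w _ => ?_
    by_cases h : Blk.get w (x.val m) = 0
    · rw [h, zero_smul]; exact Submodule.zero_mem _
    · exact Submodule.smul_mem _ _ (Submodule.subset_span ⟨⟨m, w⟩, h, rfl⟩)

theorem norm_le_tail (y : Sp β) {c : ℝ} (N : ℕ) (h0 : ∀ m < N, y.val m = 0)
    (h : ∀ m, ‖y.val m‖ ≤ c * (1 / 2) ^ m) : ‖y‖ ≤ 2 * c * (1 / 2) ^ N := by
  have h1 : HasSum (fun m : ℕ => if m < N then 0 else c * (1 / 2 : ℝ) ^ m)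
      (2 * c * (1 / 2) ^ N) := by
    rw [← hasSum_nat_add_iff' N]
    have e1 : ∑ i ∈ range N, (if i < N then 0 else c * (1 / 2 : ℝ) ^ i) = 0 :=
      sum_eq_zero fun i hi => if_pos (mem_range.1 hi)
    rw [e1, sub_zero]
    have := hasSum_geometric_two.mul_left (c * (1 / 2) ^ N)
    have e2 : (fun n : ℕ => if n + N < N then 0 else c * (1 / 2 : ℝ) ^ (n + N))
        = fun n : ℕ => c * (1 / 2) ^ N * (1 / 2) ^ n := by
      funext n
      rw [if_neg (by omega), pow_add]; ring
    have e3 : 2 * c * (1 / 2 : ℝ) ^ N = c * (1 / 2) ^ N * 2 := by ring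
    rw [e2, e3]; exact this
  refine (hasSum_sing y).norm_le_of_bounded h1 fun m => ?_
  rw [norm_sing]
  split_ifs with hm
  · exact (congrArg norm (h0 m hm)).le.trans norm_zero.le
  · exact h m

end Sp

namespace Sp

variable {β : ℕ → Blk}

theorem co_apply (m : ℕ) (w : (β m).V) (x : Sp β) : co ⟨m, w⟩ x = Blk.get w (x.val m) := rfl

theorem ev_apply (m : ℕ) (x : Sp β) : ev m x = x.val m := rfl

/-- The sum of all coordinates in the blocks before `m`. -/
noncomputable def past (β : ℕ → Blk) (m : ℕ) : Sp β →L[ℝ] ℝ :=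
  ∑ k ∈ range m, ∑ u : (β k).V, co ⟨k, u⟩

theorem past_apply (m : ℕ) (x : Sp β) :
    past β m x = ∑ k ∈ range m, ∑ u : (β k).V, co ⟨k, u⟩ x := by
  simp [past]

/-- The small weights of the connecting part. -/
noncomputable def del (β : ℕ → Blk) (m : ℕ) : ℝ :=
  (1 / 2) ^ m / (‖past β m‖ * ‖(Blk.ind univ : (β m).F)‖ + 1)

theorem del_pos (m : ℕ) : 0 < del β m := by unfold del; positivity

/-- The `m`-th row of blocks of the operator. -/
noncomputable def row (β : ℕ → Blk) (m : ℕ) : Sp β →L[ℝ] (β m).F :=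
  ((1 / 2 : ℝ) ^ m) • ((β m).adj.comp (ev m)) + del β m • (past β m).smulRight (Blk.ind univ)

theorem row_apply (m : ℕ) (x : Sp β) : row β m x =
    ((1 / 2 : ℝ) ^ m) • (β m).adj (x.val m) + (del β m * past β m x) • Blk.ind univ := by
  simp [row, ev_apply, smul_smul]

theorem norm_row (m : ℕ) (x : Sp β) : ‖row β m x‖ ≤ 2 * ‖x‖ * (1 / 2) ^ m := by
  rw [row_apply]
  refine (norm_add_le _ _).trans ?_
  rw [norm_smul, norm_smul, Real.norm_of_nonneg (by positivity), norm_mul,
    Real.norm_of_nonneg (del_pos m).le]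
  have e1 := (Blk.norm_adj (x.val m)).trans (norm_val_le x m)
  have e2 := (past β m).le_opNorm x
  set a := ‖past β m‖
  set b := ‖(Blk.ind univ : (β m).F)‖
  have ha : 0 ≤ a := norm_nonneg _
  have hb : 0 ≤ b := norm_nonneg _
  have e3 : del β m * (a * b) ≤ (1 / 2) ^ m := by
    unfold del
    rw [div_mul_eq_mul_div, div_le_iff₀ (by positivity)]
    exact mul_le_mul_of_nonneg_left (by linarith) (by positivity)
  have e4 : del β m * ‖past β m x‖ * b ≤ del β m * (a * ‖x‖) * b :=
    mul_le_mul_of_nonneg_right (mul_le_mul_of_nonneg_left e2 (del_pos m).le) hb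
  have e5 := mul_le_mul_of_nonneg_right e3 (norm_nonneg x)
  have e6 := mul_le_mul_of_nonneg_left e1 (by positivity : (0 : ℝ) ≤ (1 / 2) ^ m)
  linarith only [e4, e5, e6]

theorem mem_row (x : Sp β) : Memℓp (fun m => row β m x) 2 := by
  refine Memℓp.of_exponent_ge (q := 1) (memℓp_gen ?_) (by norm_num)
  simp only [ENNReal.toReal_one, Real.rpow_one]
  exact Summable.of_nonneg_of_le (fun _ => norm_nonneg _) (fun m => norm_row m x)
    (summable_geometric_two.mul_left _)

/-- The operator. -/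
noncomputable def op (β : ℕ → Blk) : Sp β →L[ℝ] Sp β :=
  LinearMap.mkContinuous
    { toFun := fun x => mk (fun m => row β m x) (mem_row x)
      map_add' := fun x y => val_inj (funext fun m => map_add (row β m) x y)
      map_smul' := fun a x => val_inj (funext fun m => map_smul (row β m) a x) } 4 fun x => by
    have := norm_le_tail (mk (fun m => row β m x) (mem_row x)) (c := 2 * ‖x‖) 0
      (fun m hm => absurd hm (Nat.not_lt_zero m)) fun m => norm_row m x
    refine this.trans (le_of_eq ?_)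
    ring

theorem op_val (x : Sp β) (m : ℕ) : (op β x).val m = row β m x := rfl

open Classical in
theorem co_op (m : ℕ) (w : (β m).V) (x : Sp β) : co ⟨m, w⟩ (op β x) =
    (1 / 2 : ℝ) ^ m * ∑ u ∈ univ.filter fun u => (β m).Ed u w, co ⟨m, u⟩ x
      + del β m * ∑ k ∈ range m, ∑ u : (β k).V, co ⟨k, u⟩ x := by
  rw [co_apply, op_val, row_apply, map_add, map_smul, map_smul, Blk.get_ind, if_pos (mem_univ _),
    past_apply, smul_eq_mul, smul_eq_mul, mul_one]
  rfl

theorem op_pos : Pos (op β) := by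
  intro x hx
  refine ((atomic β).nonneg_iff _).2 ?_
  rintro ⟨m, w⟩
  have h := ((atomic β).nonneg_iff _).1 hx
  show 0 ≤ co ⟨m, w⟩ (op β x)
  rw [co_op]
  exact add_nonneg (mul_nonneg (by positivity) (sum_nonneg fun u _ => h _))
    (mul_nonneg (del_pos m).le (sum_nonneg fun k _ => sum_nonneg fun u _ => h _))

/-- The map sending a vector to its component, as a linear map. -/
theorem val_sum (m : ℕ) (s : Finset ℕ) (f : ℕ → Sp β) :
    (∑ k ∈ s, f k).val m = ∑ k ∈ s, (f k).val m := map_sum (ev m) f s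

theorem op_compact : IsCompactOperator (op β) := by
  let T : ℕ → Sp β →L[ℝ] Sp β := fun N => ∑ k ∈ range N, (sing k).comp (row β k)
  have hT : ∀ N, IsCompactOperator (T N) := by
    intro N
    induction N with
    | zero => simpa [T] using isCompactOperator_zero
    | succ N ih =>
      have : ProperSpace (β N).F := FiniteDimensional.proper_real _
      have h2 : IsCompactOperator ((sing N).comp (row β N)) :=
        (isCompactOperator_of_locallyCompactSpace_dom (row β N)).clm_comp (sing N)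
      have := ih.add h2
      simp only [T, sum_range_succ]
      exact this
  have hval : ∀ N x m, (T N x).val m = if m < N then row β m x else 0 := by
    intro N x m
    have : T N x = ∑ k ∈ range N, sing k (row β k x) := by simp [T]
    rw [this, val_sum]
    split_ifs with hm
    · rw [sum_eq_single m (fun k _ hk => sing_ne hk.symm _) fun h => absurd (mem_range.2 hm) h,
        sing_self]
    · exact sum_eq_zero fun k hk => sing_ne (by rw [mem_range] at hk; omega) _
  have hb : ∀ N, ‖T N - op β‖ ≤ 4 * (1 / 2) ^ N := by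
    intro N
    refine ContinuousLinearMap.opNorm_le_bound _ (by positivity) fun x => ?_
    have hv : ∀ m, ((T N - op β) x).val m = (T N x).val m - row β m x := fun m => rfl
    have := norm_le_tail ((T N - op β) x) (c := 2 * ‖x‖) N
      (fun m hm => by rw [hv, hval, if_pos hm, sub_self]) fun m => by
        rw [hv, hval]
        split_ifs
        · rw [sub_self, norm_zero]; positivity
        · rw [zero_sub, norm_neg]; exact norm_row m x
    refine this.trans (le_of_eq ?_)
    ring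
  refine isCompactOperator_of_tendsto (l := atTop) (F := T) ?_ (Eventually.of_forall hT)
  rw [tendsto_iff_norm_sub_tendsto_zero]
  refine squeeze_zero (fun _ => norm_nonneg _) hb ?_
  have := (tendsto_pow_atTop_nhds_zero_of_lt_one (r := (1 / 2 : ℝ)) (by norm_num)
    (by norm_num)).const_mul 4
  rwa [mul_zero] at this

/-- Offsets for a global rank function. -/
def off (β : ℕ → Blk) (m : ℕ) : ℕ := ∑ k ∈ range m, (univ.sup (β k).lev + 1)

theorem off_lt {k m : ℕ} (h : k < m) (u : (β k).V) : off β k + (β k).lev u < off β m := by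
  have e1 : off β (k + 1) ≤ off β m :=
    sum_le_sum_of_subset (range_subset_range.2 h)
  have e2 : off β (k + 1) = off β k + (univ.sup (β k).lev + 1) := sum_range_succ _ _
  have e3 : (β k).lev u ≤ univ.sup (β k).lev := le_sup (f := (β k).lev) (mem_univ u)
  omega

theorem op_pow_zero (N : ℕ) (x : Sp β) : ∀ (m : ℕ) (w : (β m).V), off β m + (β m).lev w < N →
    co ⟨m, w⟩ ((op β ^ N) x) = 0 := by
  classical
  induction N with
  | zero => intro m w h; exact absurd h (Nat.not_lt_zero _)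
  | succ N ih =>
    intro m w h
    rw [pow_succ']
    show co ⟨m, w⟩ (op β ((op β ^ N) x)) = 0
    rw [co_op, sum_eq_zero, sum_eq_zero, mul_zero, mul_zero, add_zero]
    · intro k hk
      refine sum_eq_zero fun u _ => ih k u ?_
      have := off_lt (mem_range.1 hk) u
      omega
    · intro u hu
      have := (β m).lev_lt _ _ (mem_filter.1 hu).2
      exact ih m u (by omega)

theorem op_tail (M : ℕ) (x : Sp β) (h : ∀ m < M, x.val m = 0) :
    (∀ m < M, (op β x).val m = 0) ∧ ‖op β x‖ ≤ 4 * (1 / 2) ^ M * ‖x‖ := by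
  have h0 : ∀ m < M, (op β x).val m = 0 := by
    intro m hm
    refine Blk.ext' fun w => ?_
    rw [← co_apply, co_op, sum_eq_zero, sum_eq_zero, mul_zero, mul_zero, add_zero, map_zero]
    · intro k hk
      refine sum_eq_zero fun u _ => ?_
      rw [co_apply, h k (lt_trans (mem_range.1 hk) hm), map_zero]
    · intro u _
      rw [co_apply, h m hm, map_zero]
  refine ⟨h0, (norm_le_tail (op β x) (c := 2 * ‖x‖) M h0 fun m => norm_row m x).trans
    (le_of_eq ?_)⟩
  ring

theorem op_pow_le (M k : ℕ) :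
    ‖op β ^ (k + off β M)‖ ≤ ‖op β ^ off β M‖ * (4 * (1 / 2) ^ M) ^ k := by
  refine ContinuousLinearMap.opNorm_le_bound _ (by positivity) fun x => ?_
  have key : (∀ m < M, ((op β ^ (k + off β M)) x).val m = 0) ∧
      ‖(op β ^ (k + off β M)) x‖ ≤ ‖op β ^ off β M‖ * (4 * (1 / 2) ^ M) ^ k * ‖x‖ := by
    induction k with
    | zero =>
      refine ⟨fun m hm => Blk.ext' fun w => ?_, ?_⟩
      · rw [zero_add, ← co_apply, op_pow_zero _ _ _ _ (off_lt hm w), map_zero]
      · rw [zero_add, pow_zero, mul_one]; exact ContinuousLinearMap.le_opNorm _ _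
    | succ k ih =>
      have e : (op β ^ (k + 1 + off β M)) x = op β ((op β ^ (k + off β M)) x) := by
        rw [show k + 1 + off β M = (k + off β M) + 1 by ring, pow_succ']; rfl
      rw [e]
      obtain ⟨a1, a2⟩ := op_tail M _ ih.1
      refine ⟨a1, a2.trans ((mul_le_mul_of_nonneg_left ih.2 (by positivity)).trans
        (le_of_eq ?_))⟩
      ring
  exact key.2

theorem op_qn : Tendsto (fun n : ℕ => ‖op β ^ n‖ ^ (1 / (n : ℝ))) atTop (𝓝 0) := by
  rw [Metric.tendsto_atTop]
  intro ε hε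
  obtain ⟨M, hM⟩ := exists_pow_lt_of_lt_one (x := ε / 8) (y := (1 / 2 : ℝ)) (by positivity)
    (by norm_num)
  set τ : ℝ := 4 * (1 / 2) ^ M with hτ
  have hτ0 : 0 < τ := by positivity
  set N := off β M with hN
  obtain ⟨N1, hN1⟩ := pow_unbounded_of_one_lt (‖op β ^ N‖ / τ ^ N) (by norm_num : (1 : ℝ) < 2)
  refine ⟨max (max N N1) 1, fun n hn => ?_⟩
  have h1 : N ≤ n := le_trans (le_trans (le_max_left _ _) (le_max_left _ _)) hn
  have h2 : N1 ≤ n := le_trans (le_trans (le_max_right _ _) (le_max_left _ _)) hn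
  have h3 : n ≠ 0 := by have := le_trans (le_max_right _ _) hn; omega
  obtain ⟨k, rfl⟩ := Nat.exists_eq_add_of_le' h1
  have e1 := op_pow_le (β := β) M k
  rw [← hN, ← hτ] at e1
  have e2 : ‖op β ^ N‖ ≤ 2 ^ (k + N) * τ ^ N := by
    rw [div_lt_iff₀ (by positivity)] at hN1
    exact hN1.le.trans (mul_le_mul_of_nonneg_right (pow_le_pow_right₀ (by norm_num) h2)
      (by positivity))
  have e3 : ‖op β ^ (k + N)‖ ≤ (2 * τ) ^ (k + N) := by
    refine e1.trans ((mul_le_mul_of_nonneg_right e2 (by positivity)).trans (le_of_eq ?_))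
    rw [mul_pow 2 τ, pow_add τ]; ring
  rw [Real.dist_eq, sub_zero, abs_of_nonneg (by positivity)]
  refine (Real.rpow_le_rpow (norm_nonneg _) e3 (by positivity)).trans_lt ?_
  rw [one_div, Real.pow_rpow_inv_natCast (by positivity) h3]
  rw [hτ]; linarith only [hM]

theorem op_entry_pos {k m : ℕ} (h : k < m) (u : (β k).V) (w : (β m).V) :
    0 < co ⟨m, w⟩ (op β (e ⟨k, u⟩)) := by
  have hn : ∀ i, 0 ≤ co i (e ⟨k, u⟩ : Sp β) := (atomic β).co_nonneg ((atomic β).e_nonneg _)
  rw [co_op]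
  refine add_pos_of_nonneg_of_pos (mul_nonneg (by positivity) (sum_nonneg fun u _ => hn _))
    (mul_pos (del_pos m) ?_)
  refine lt_of_lt_of_le ?_ (single_le_sum (f := fun j => ∑ u' : (β j).V, co ⟨j, u'⟩ (e ⟨k, u⟩))
    (fun j _ => sum_nonneg fun u _ => hn _) (mem_range.2 h))
  refine lt_of_lt_of_le ?_ (single_le_sum (f := fun u' : (β k).V => co ⟨k, u'⟩ (e ⟨k, u⟩))
    (fun j _ => hn _) (mem_univ u))
  exact lt_of_lt_of_eq zero_lt_one ((atomic β).co_self ⟨k, u⟩).symm

theorem op_entry_edge {m : ℕ} {x y : (β m).V} (h : (β m).Ed x y) :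
    (1 / 2 : ℝ) ^ m ≤ co ⟨m, y⟩ (op β (e ⟨m, x⟩)) := by
  classical
  have hn : ∀ i, 0 ≤ co i (e ⟨m, x⟩ : Sp β) := (atomic β).co_nonneg ((atomic β).e_nonneg _)
  rw [co_op]
  refine le_add_of_le_of_nonneg (le_mul_of_one_le_right (by positivity) ?_)
    (mul_nonneg (del_pos m).le (sum_nonneg fun k _ => sum_nonneg fun u _ => hn _))
  refine le_trans ?_ (single_le_sum (f := fun u' : (β m).V => co ⟨m, u'⟩ (e ⟨m, x⟩))
    (fun j _ => hn _) (mem_filter.2 ⟨mem_univ x, h⟩))
  exact ((atomic β).co_self ⟨m, x⟩).ge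

theorem bdd_of_pos {X : Sp β →L[ℝ] Sp β} (m : ℕ) {M : ℝ} (hM : ‖X‖ ≤ M) :
    Bdd (β m).Φ M fun y z => co ⟨m, y⟩ (X (e ⟨m, z⟩)) := by
  intro U c hU S hS
  have e1 : ∀ y, ∑ z ∈ U, co ⟨m, y⟩ (X (e ⟨m, z⟩)) = co ⟨m, y⟩ (X (sing m (Blk.ind U))) := by
    intro y
    rw [Blk.ind_eq_sum, map_sum, map_sum, map_sum]; rfl
  simp only [e1]
  have e2 : ‖(Blk.ind U : (β m).F)‖ ≤ c := by
    refine Blk.N_le _ (Nat.cast_nonneg c) fun S' hS' => ?_
    have : ∑ w ∈ S', |(Blk.ind U : (β m).F) w| = (S' ∩ U).card := by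
      have : ∀ w, |(Blk.ind U : (β m).F) w| = if w ∈ U then 1 else 0 := fun w => by
        unfold Blk.ind; split_ifs <;> simp
      simp only [this]
      rw [sum_ite_mem, sum_const, nsmul_eq_mul, mul_one]
    rw [this]
    exact_mod_cast hU S' hS'
  refine (sum_le_sum fun y _ => le_abs_self _).trans
    ((Blk.le_N ((X (sing m (Blk.ind U))).val m) hS).trans ?_)
  refine (norm_val_le _ m).trans ((X.le_opNorm _).trans ?_)
  rw [norm_sing]
  exact mul_le_mul hM e2 (norm_nonneg _) ((norm_nonneg _).trans hM)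

theorem entry_prod {X Y : Sp β →L[ℝ] Sp β}
    (hX : ∀ k m, k < m → ∀ (u : (β k).V) (w : (β m).V), co ⟨k, u⟩ (X (e ⟨m, w⟩)) = 0)
    (hY : ∀ k m, k < m → ∀ (u : (β k).V) (w : (β m).V), co ⟨k, u⟩ (Y (e ⟨m, w⟩)) = 0)
    (m : ℕ) (x y : (β m).V) : co ⟨m, y⟩ (X (Y (e ⟨m, x⟩))) =
      ∑ z, co ⟨m, y⟩ (X (e ⟨m, z⟩)) * co ⟨m, z⟩ (Y (e ⟨m, x⟩)) := by
  set v := Y (e ⟨m, x⟩) with hv
  have e1 : co ⟨m, y⟩ (X (v - sing m (v.val m))) = 0 := by
    refine (atomic β).kill ((co ⟨m, y⟩).comp X) _ ?_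
    rintro ⟨k, z⟩ hz
    have e0 : (atomic β).co ⟨k, z⟩ (v - sing m (v.val m))
        = Blk.get z (v.val k) - Blk.get z ((sing m (v.val m) : Sp β).val k) := map_sub _ _ _
    rw [e0] at hz
    rcases lt_trichotomy k m with h | h | h
    · rw [sing_ne h.ne, map_zero, sub_zero] at hz
      exact absurd (hY k m h z x) hz
    · subst h
      rw [sing_self, sub_self] at hz
      exact absurd rfl hz
    · exact hX m k h y z
  rw [map_sub, map_sub, sub_eq_zero] at e1
  rw [e1, sing_eq, map_sum, map_sum]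
  refine sum_congr rfl fun z _ => ?_
  rw [map_smul, map_smul, smul_eq_mul, mul_comm, co_apply m z]

end Sp

theorem Sp.norm_P {β : ℕ → Blk} (S : Set (Σ m, (β m).V)) (x : Sp β) : ‖Sp.P S x‖ ≤ ‖x‖ := by
  have := (Sp.P S).le_of_opNorm_le (LinearMap.mkContinuous_norm_le _ zero_le_one _) x
  rwa [one_mul] at this

theorem Sp.hasSum_basis {β : ℕ → Blk} (x : Sp β) :
    HasSum (fun i => Sp.co i x • (Sp.e i : Sp β)) x := by
  classical
  have h1 : ∀ (S : Finset (Σ m, (β m).V)) (y : Sp β),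
      ∑ i ∈ S, Sp.co i y • (Sp.e i : Sp β) = Sp.P S y := by
    intro S y
    refine (Sp.atomic β).ext' fun j => ?_
    rw [map_sum]
    by_cases hj : j ∈ S
    · rw [sum_eq_single_of_mem j hj fun i _ hi => by
        rw [map_smul]; exact smul_eq_zero_of_right _ ((Sp.atomic β).co_ne j i hi.symm), map_smul]
      exact (congrArg (Sp.co j y • ·) ((Sp.atomic β).co_self j)).trans
        ((mul_one _).trans ((Sp.atomic β).P_in S y j hj).symm)
    · rw [sum_eq_zero fun i hi => by
        rw [map_smul]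
        exact smul_eq_zero_of_right _ ((Sp.atomic β).co_ne j i fun e => hj (e ▸ hi))]
      exact ((Sp.atomic β).P_out S y j hj).symm
  refine Metric.tendsto_atTop.2 fun ε hε => ?_
  obtain ⟨y, hy, hxy⟩ := Metric.mem_closure_iff.1 ((Sp.atomic β).dense x) (ε / 2) (by positivity)
  have h2 : ∃ S0 : Finset (Σ m, (β m).V), ∀ S ≥ S0, Sp.P S y = y := by
    refine Submodule.span_induction (p := fun y _ => ∃ S0 : Finset (Σ m, (β m).V),
      ∀ S ≥ S0, Sp.P S y = y) ?_ ⟨∅, fun S _ => map_zero _⟩ ?_ ?_ hy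
    · rintro _ ⟨i, -, rfl⟩
      exact ⟨{i}, fun S hS => (Sp.atomic β).P_e_in (hS (mem_singleton_self i))⟩
    · rintro a b - - ⟨S1, a1⟩ ⟨S2, a2⟩
      exact ⟨S1 ∪ S2, fun S hS => by
        rw [map_add, a1 S (subset_union_left.trans hS), a2 S (subset_union_right.trans hS)]⟩
    · rintro t a - ⟨S1, a1⟩
      exact ⟨S1, fun S hS => by rw [map_smul, a1 S hS]⟩
  obtain ⟨S0, h2⟩ := h2
  refine ⟨S0, fun S hS => ?_⟩
  have e1 : Sp.P S x - x = Sp.P S (x - y) - (x - y) := by
    rw [map_sub, h2 S hS]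
    abel
  rw [h1, dist_eq_norm, e1]
  rw [dist_eq_norm] at hxy
  linarith [norm_sub_le (Sp.P S (x - y)) (x - y), Sp.norm_P (S : Set _) (x - y)]

theorem counterexample_dom : ∃ β : ℕ → Blk, ∀ A B : Sp β →L[ℝ] Sp β, Pos A → Pos B →
    (IsCompactOperator A ∨ IsCompactOperator B) →
      ¬ ∀ x, 0 ≤ x → Sp.op β x ≤ A (B x) - B (A x) := by
  choose V fin dec Φ Ed lev h1 h2 h3 h4 h5 using fun m : ℕ =>
    finite_block ((m : ℝ) + 1) ((1 / 2) ^ m) (by positivity) (by positivity)
  let β : ℕ → Blk := fun m => ⟨V m, fin m, dec m, Φ m, Ed m, lev m, h1 m, h2 m, h3 m, h4 m⟩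
  refine ⟨β, fun A B hA hB hc hle => ?_⟩
  have dom : ∀ i j, Sp.co i (Sp.op β (Sp.e j)) ≤ Sp.co i ((A * B - B * A) (Sp.e j)) := fun i j =>
    (Sp.atomic β).le_iff.1 (hle _ ((Sp.atomic β).e_nonneg j)) i
  have tri := fun k m (h : k < m) (u : (β k).V) (w : (β m).V) =>
    (Sp.atomic β).triangular hA hB (fun x hx => (Sp.op_pos x hx).trans (hle x hx)) hc ⟨k, u⟩ ⟨m, w⟩
      ((Sp.op_entry_pos h u w).trans_le (dom _ _))
  obtain ⟨m, hm⟩ := exists_nat_ge (max ‖A‖ ‖B‖)
  have ent : ∀ X : Sp β →L[ℝ] Sp β, Pos X → ∀ y z : (β m).V,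
      0 ≤ Sp.co ⟨m, y⟩ (X (Sp.e ⟨m, z⟩)) := fun X hX y z =>
    (Sp.atomic β).co_nonneg (hX _ ((Sp.atomic β).e_nonneg _)) _
  obtain ⟨x, y, hE, hlt⟩ := h5 m _ _ (ent A hA) (ent B hB)
    (Sp.bdd_of_pos (β := β) m (by linarith [le_max_left ‖A‖ ‖B‖]))
    (Sp.bdd_of_pos (β := β) m (by linarith [le_max_right ‖A‖ ‖B‖]))
  have e1 := (Sp.op_entry_edge (β := β) (m := m) hE).trans (dom _ _)
  have e2 := Sp.entry_prod (X := A) (Y := B) (fun k m h u w => (tri k m h u w).1)
    (fun k m h u w => (tri k m h u w).2) m x y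
  have e3 := Sp.entry_prod (X := B) (Y := A) (fun k m h u w => (tri k m h u w).2)
    (fun k m h u w => (tri k m h u w).1) m x y
  have e4 : Sp.co ⟨m, y⟩ ((A * B - B * A) (Sp.e ⟨m, x⟩)) =
      Sp.co ⟨m, y⟩ (A (B (Sp.e ⟨m, x⟩))) - Sp.co ⟨m, y⟩ (B (A (Sp.e ⟨m, x⟩))) := map_sub _ _ _
  rw [e4, e2, e3] at e1
  exact absurd hlt (not_lt.2 e1)

theorem Sp.refl (β : ℕ → Blk) :
    Function.Surjective (NormedSpace.inclusionInDoubleDual ℝ (Sp β)) :=
  lp_refl (G := fun m => (β m).F)

end Pool.Agent.Work.MP_4e33a2_an.R
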